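import Pool.Agent.MWN.Defs

/-!
# Block MWN, part A: shared rows for the necessity clauses

Every row: file `Pool/Agent/HelperNN_MWN/XXX.lean`, import `Pool.Agent.MWN.StmtsA`, namespace
`Pool.Agent.MWN.HNN`, theorem `xxx (hypotheses = rows in uses, in this order) : XxxStmt`.
Nothing here depends on the period: `CapP β` says that the numbers of occurrences up to `2` are
preserved, `NC2 β` that `xy ≈ yx` is not in `β`.  Tools: `gaml`, `le_gaml`, `RR_gaml`,
`gaml_keep`, `pent` (`MWF/Defs.lean`); `asm`, `dec`, `uniq`, `count_sep`, `filter_sep`, `mem_asm`,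
`count_asm`, `asm_filter`, `asm_ins`, `rr_sub` (`MVO/Basic.lean`); `pshB`, `psh` (`MVO/Push.lean`).
A letter `c = 0` or `c = 1` satisfies `NS k c`; so `Two01 k U` gives `BlkOk k U`.
-/

namespace Pool.Agent.MWN

open Pool.Agent.Helper14_MV Pool.Agent.Helper2_MV Pool.Agent.MVO Pool.Agent.MWL Pool.Agent.MWS
  Pool.Agent.MWF

/-- **NDC** (uses nothing).  Decomposition of an instance.  If an instance of a word with two
multiple letters is a block word, then all instances with the same substitution and context are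
block words, in a uniform way.
PROOF.  `N := k + k1 + 2`.  Template: let `f' c := f c` for `2 ≤ c ≤ k1 + 1` and `[c]` else, and
`τ := p ++ (asm k1 (fun j => [N + j])).flatMap f' ++ q`.  All letters of `p`, `q` and of `f c`, `2 ≤ c ≤ k1+1`,
are letters of `asm k W`, so they are `0`, `1` or in `2..k+1` (all `< N`).  (1) For every `V` with
`Two01 k1 V`: `τ.flatMap (hv N f V) = p ++ (asm k1 V).flatMap f ++ q` (`List.flatMap_append`,
`List.flatMap_assoc`; `hv` fixes letters `< N`; `hv (N+j) = (V j).flatMap f`; induction on `k1` for `asm`, or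
`asm_ins`).  (2) `τ.filter sep = seps k`, `sep c := 2 ≤ c ∧ c ≤ k + 1`: for `V = U` the word of (1) is
`asm k W`, its filter is `seps k` (`filter_sep`), and the images of the letters `N + j` have letters `0`, `1`
only, so `(τ.flatMap (hv N f U)).filter sep = τ.filter sep`.  (3) `dec`: `τ = asm k T`, `NS k c` for the
letters of `T`; so `τ.flatMap (hv N f V) = asm k (fun t => (T t).flatMap (hv N f V))` (`hv` fixes the simple
letters; `asm_ins` with `P = Q = []`, or induction).  (4) `τ.filter (N ≤ ·) = (List.range (k1+1)).map (N + ·)`,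
and it is the concatenation of the lists `(T t).filter (N ≤ ·)`, `t = 0..k`.  Let `g j` be the number `t` of the
block which contains `N + j` (exactly one, because the list has no repetitions).  As the
concatenated list is increasing, `g` is order preserving, and the part of block `t` consists of the
`N + j` with `g j = t` in increasing order (e.g. both sides are the filter of the whole list by
membership in the part `t`; outside `0..k1` let `g j = k`). -/
def NdcStmt : Prop :=
  ∀ (k k1 : ℕ) (f : ℕ → List ℕ) (p q : List ℕ) (U W : ℕ → List ℕ), Two01 k W → Two01 k1 U →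
    (∀ c, c ∈ f 0 ∨ c ∈ f 1 → c = 0 ∨ c = 1) → p ++ (asm k1 U).flatMap f ++ q = asm k W →
      ∃ (T : ℕ → List ℕ) (g : ℕ → ℕ), BMap k1 k g ∧
        (∀ t ≤ k, ∀ c ∈ T t, c = 0 ∨ c = 1 ∨ k + k1 + 2 ≤ c) ∧
        (∀ t ≤ k, (T t).filter (fun c => decide (k + k1 + 2 ≤ c)) =
          ((List.range (k1 + 1)).filter (fun j => decide (g j = t))).map
            (fun j => k + k1 + 2 + j)) ∧
        ∀ V : ℕ → List ℕ, Two01 k1 V →
          p ++ (asm k1 V).flatMap f ++ q = asm k (fun t => (T t).flatMap (hv (k + k1 + 2) f V))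

/-- **NCT** (uses nothing).  Counting in a template.  The hypotheses on `T`, `g` are those of NDC.
PROOF.  `((T t).flatMap h).count d` is the sum over the letters `c` of `T t` of `(h c).count d`
(`List.count_flatMap`, or induction on the list); split the list `T t` into the letters `< N` (they
contribute a number `r t d` which does not depend on `V`) and the letters `≥ N`, which are the
`N + j`, `j ≤ k1`, `g j = t`, each once; `hv N f V (N + j) = (V j).flatMap f`, and
`((V j).flatMap f).count d = (V j).count 0 * (f 0).count d + (V j).count 1 * (f 1).count d` as the letters of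
`V j` are `0`, `1`. -/
def NctStmt : Prop :=
  ∀ (k1 N : ℕ) (f : ℕ → List ℕ) (T : List ℕ) (g : ℕ → ℕ) (t : ℕ),
    (T.filter (fun c => decide (N ≤ c)) =
      ((List.range (k1 + 1)).filter (fun j => decide (g j = t))).map (fun j => N + j)) →
      ∀ d, ∃ r : ℕ, ∀ V : ℕ → List ℕ, Two01 k1 V →
        (T.flatMap (hv N f V)).count d =
          r + (f 0).count d * psh k1 g (ty V 0) t + (f 1).count d * psh k1 g (ty V 1) t

/-- **NIN** (uses NDC, NCT).  Exchanges in the congruence of a language.
PROOF.  `RR_gaml`; the hypotheses are symmetric in `U`, `V` (`IncC` for the types of `U` = types of `V` on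
`0..k1`), so we show one direction.  Let `w = p ++ (asm k1 U).flatMap f ++ q` be in the language,
`w = asm k W`.  (1) The letters of `f 0` and `f 1` are `0` or `1`: a letter `c ≠ 0, 1` of `w` is a simple letter,
so it occurs once in `w` (`count_sep`), but a letter of `f 0` occurs at least as often as `0` in
`asm k1 U`, i.e. at least twice.
(2) If `f 0 = []` or `f 1 = []` or all letters of `f 0 ++ f 1` are equal to one letter `d`, then
`(U j).flatMap f = (V j).flatMap f` for all `j ≤ k1` (the first is a power of `f 1` with exponent the count of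
`1`, .., in the last case it is `d^m`, `m = (U j).count 0 * |f 0| + (U j).count 1 * |f 1|`), so the two words are
equal (`asm_congr` after mapping, or induction).
(3) Otherwise there are `c ∈ f 0`, `d ∈ f 1` with `c ≠ d`, so `(c, d) = (0, 1)` or `(1, 0)`.  NDC: `T`, `g`;
`asm k W = asm k (fun t => (T t).flatMap (hv N f U))`, so the blocks are equal (`uniq`).  NCT: for `t ≤ k`
`(W t).count c ≥ psh k1 g (ty U 0) t` and `(W t).count d ≥ psh k1 g (ty U 1) t`.  If a number satisfies a
condition, all smaller numbers satisfy `ub`.  So for `(0, 1)`: `Into (ty U 0) A` and `Into (ty U 1) B`; for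
`(1, 0)`: `Into (ty U 1) A` and `Into (ty U 0) B`: contradiction to `IncC`. -/
def NinStmt : Prop :=
  ∀ (k k1 : ℕ) (A B : ℕ → Cd) (S : List ℕ → Prop) (i : ℕ) (U V : ℕ → List ℕ), Two01 k1 U →
    Two01 k1 V → (∀ j ≤ k1, ∀ c, (U j).count c = (V j).count c) → 2 ≤ deg k1 (ty U 0) →
      2 ≤ deg k1 (ty U 1) → IncC k1 k (ty U 0) (ty U 1) A B →
        RR (LC k A B S i) (asm k1 U) (asm k1 V)

/-- **NKC** (uses NDC, NCT).  One letter identities keep the conditions on the types.
PROOF.  Let `w = p ++ (mw k1 c).flatMap f ++ q = asm k W`.  The letters of `f 0` are `0`, `1` (as in NIN (1),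
`2 ≤ deg k1 c`).  `f 1` does not matter (the letter `1` does not occur in `mw`), so let `f 1 = []`.
(`mw k1 c = asm k1 (replicate (c j) 0)`.)  NDC with `U = replicate (c j) 0`: `T`, `g`; the second word is
`asm k W'`, `W' t = (T t).flatMap (hv N f V)`, `V = replicate (c' j) 0` (`Two01 k W'`: letters of `T t` which are
`< N` are `0`, `1`; letters of `f 0`).  Let `m = (f 0).count 0`.  NCT for `d = 0`: `(W t).count 0 = r + m *
psh k1 g c t` and `(W' t).count 0 = r + m * psh k1 g c' t`.  If `m = 0` the counts agree.  If `m ≥ 1` and `Sat` for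
`W`: `Into k1 k g c A` (numbers below a number which satisfies a condition satisfy `ub`), so by `KapC` `good`
holds for all `t ≤ k`; check the five conditions: `good p q` implies
`sat (r + m p) = sat (r + m q)` for `m ≥ 1`.  The same for the letter `1` and `B`. -/
def NkcStmt : Prop :=
  ∀ (k k1 : ℕ) (A B : ℕ → Cd) (c c' : ℕ → ℕ) (f : ℕ → List ℕ) (p q : List ℕ) (W : ℕ → List ℕ),
    2 ≤ deg k1 c → KapC k1 k c c' A → KapC k1 k c c' B → Two01 k W → Sat k A (ty W 0) →
      Sat k B (ty W 1) → p ++ (mw k1 c).flatMap f ++ q = asm k W →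
        ∃ W' : ℕ → List ℕ, p ++ (mw k1 c').flatMap f ++ q = asm k W' ∧ Two01 k W' ∧
          Sat k A (ty W' 0) ∧ Sat k B (ty W' 1)

/-- **NSB** (uses nothing).  Sublists of two different letters and substitutions.
PROOF.  Induction on `T`: `[d, e]` is a sublist of `l1 ++ l2` iff it is a sublist of `l1` or of `l2`, or
`d ∈ l1` and `e ∈ l2` (`List.sublist_append_iff`). -/
def NsbStmt : Prop :=
  ∀ (T : List ℕ) (h h' : ℕ → List ℕ) (d e : ℕ),
    (∀ x ∈ T, ((d ∈ h x ↔ d ∈ h' x) ∧ (e ∈ h x ↔ e ∈ h' x)) ∧
      (List.Sublist [d, e] (h x) ↔ List.Sublist [d, e] (h' x))) →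
      (List.Sublist [d, e] (T.flatMap h) ↔ List.Sublist [d, e] (T.flatMap h'))

/-- **NKA** (uses NDC, NCT, NKC, NSB).  One letter identities in the congruence of a language, state
`Fst`.
PROOF.  `RR_gaml`; the hypotheses are symmetric (`KapC` too: `good` is symmetric), so show one
direction.  `w = p ++ (mw k1 c).flatMap f ++ q = asm k W` in the language.  NKC gives `W'` with the
conditions on the types; it remains `Fst st (W' i)`.  The letters of `f 0` are `0`, `1`; let `f 1 = []`.  If
`f 0 = []` the words are equal.  NDC as in NKC (with `uniq`): `W t = (T t).flatMap (hv N f U)`,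
`W' t = (T t).flatMap (hv N f V)`, `U j = replicate (c j) 0`, `V j = replicate (c' j) 0`.
(a) `0` and `1` both occur in `Z := f 0`.  If `c j ≠ 0`, `j ≤ k1`, then block `g j` of `W` contains `0` and `1`, so
neither `A (g j)` nor `B (g j)` is `z`, and `g j = i` by `Onl`.  So by NCT the block `i` of `W` contains
`deg k1 c ≥ 2` copies of `Z`: precisely `T i` contains letters `N + j` with `c j ≠ 0`; either one of them has
`c j ≥ 2`, so `Z ++ Z` is a sublist of `W i`, or there are two of them, and again `Z ++ Z` is a sublist.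
`[0,1]` and `[1,0]` are sublists of `Z ++ Z`: contradiction to `Fst st (W i)`.
(b) `Z` is a power of a letter.  NSB with `h = hv N f U`, `h' = hv N f V`, `T = T i`, `d ≠ e` the two letters of
`Fst st`: for a letter `x < N` of `T i` equal; for `x = N + j`: `h x = Z^(c j)`, `h' x = Z^(c' j)`, both empty or
both not empty (`c j = 0 ↔ c' j = 0`), and powers of one letter, so neither contains `[d, e]`. -/
def NkaStmt : Prop :=
  ∀ (k k1 : ℕ) (A B : ℕ → Cd) (st : Bool) (i : ℕ) (c c' : ℕ → ℕ), Onl k i A B →
    (∀ j ≤ k1, (c j = 0 ↔ c' j = 0)) → 2 ≤ deg k1 c → 2 ≤ deg k1 c' → KapC k1 k c c' A →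
      KapC k1 k c c' B → L1 (LC k A B (Fst st) i) k1 c c'

/-- **NKL** (uses NKC).  The same for the state `Lst` (last block `k`).
PROOF.  `RR_gaml`, one direction.  NKC: `W'`.  `w`, `w'` the two words.  (The last letter of `W k` is `1`, so
the last letter of `w` is `1`: `asm_split` or `asm_append_last`.)  The last letters of `w` and `w'` are equal:
if `q ≠ []` it is the last letter of `q`; if `q = []` and `f 0 ≠ []`, it is the last letter of `f 0`, because
the last letter of `mw k1 c` and of `mw k1 c'` is `0` (`c k1 ≠ 0`, `c' k1 ≠ 0`); if `f 0 = []` the words are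
equal.  So the last letter of `w' = asm k W'` is `1`; `W' k = []` is impossible (then `w'` is empty or
its last letter is the simple letter `k + 1 ≥ 2`), so the last letter of `W' k` is `1`. -/
def NklStmt : Prop :=
  ∀ (k k1 : ℕ) (A B : ℕ → Cd) (c c' : ℕ → ℕ), c k1 ≠ 0 → c' k1 ≠ 0 → 2 ≤ deg k1 c →
    2 ≤ deg k1 c' → KapC k1 k c c' A → KapC k1 k c c' B → L1 (LC k A B Lst k) k1 c c'

/-- **NGA** (uses nothing).  Words with the same types are related in the congruence of the types.
PROOF.  `RR_gaml`, one direction.  `w = p ++ (asm k1 U).flatMap f ++ q`, `w'` the same with `V`; `PT β k a b w`.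
(1) A letter `t ≠ 0, 1` is not in `f 0`: otherwise it occurs at least twice in `w` and so in
`w.filter (≠ 1)` (the letter `0` occurs at least twice in `asm k1 U`), but at most once in `mw k a`
(simple letters: `count_sep`; other letters do not occur): contradiction to `CapP`.  The same for `f 1`.
(2) So `(f 0).filter (≠ 1) = 0^r`, `(f 1).filter (≠ 1) = 0^s`, and for every `j ≤ k1` the filtered images of
`U j` and `V j` are `0^(r a_j + s b_j)`: equal.  So `w.filter (≠ 1) = w'.filter (≠ 1)`, the same for `≠ 0`. -/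
def NgaStmt : Prop :=
  ∀ β : FIC, CapP β → ∀ (k k1 : ℕ) (a b : ℕ → ℕ) (U V : ℕ → List ℕ), Two01 k1 U → Two01 k1 V →
    (∀ j ≤ k1, ∀ c, (U j).count c = (V j).count c) → 2 ≤ deg k1 (ty U 0) →
      2 ≤ deg k1 (ty U 1) → RR (gaml (PT β k a b)) (asm k1 U) (asm k1 V)

/-- **NBF** (uses nothing).  A word which is related to a block word with the letters `0`, `1` is a
block word with the letters `0`, `1` (compare the row NRM of MWS).
PROOF.  `S c := 2 ≤ c ∧ c ≤ k + 1`.  By `CapP` `v` contains every letter `c` with `S c` exactly once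
(`count_sep`), so `v.filter S` is a permutation of `seps k`.  If it is not `seps k`, two letters `s < t` of
`seps k` are in the other order in `v.filter S`; filter to `{s, t}`: `RR β [s, t] [t, s]`, rename: `RR β [0,1]
[1,0]`, contradiction to `NC2`.  So `v.filter S = seps k` and `dec` gives `v = asm k V`, `NS k c` for the
letters of `V`; such a letter `c` is in `v`, so by `CapP` in `asm k U`, so it is `0` or `1` (`mem_asm`).  (The
proof of NRM: `Pool/Agent/Helper67_MWS/NRM.lean`.) -/
def NbfStmt : Prop :=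
  ∀ β : FIC, CapP β → NC2 β → ∀ (k : ℕ) (U : ℕ → List ℕ) (v : List ℕ), Two01 k U →
    RR β (asm k U) v → ∃ V : ℕ → List ℕ, v = asm k V ∧ Two01 k V

/-- **NGM** (uses MVO.ONE, NBF).  Words with related types are block words.
PROOF.  `w0 := w.filter (≠ 1)` is related to `mw k a = asm k (0^(a j))`; NBF (symmetry): `w0 = asm k W0`,
`Two01`; `w1 := w.filter (≠ 0)` is related to `asm k (1^(b j))`: `w1 = asm k W1`.  So the letters of `w` are `0`,
`1`, `2..k+1`; `w.filter sep = w0.filter sep = seps k` (`filter_sep`), so `dec`: `w = asm k W`, and the letters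
of `W j` (`j ≤ k`) are letters of `w` with `NS k c`, so `0` or `1`.  `asm_filter`: `w0 = asm k (fun j =>
(W j).filter (≠ 1))`; ONE (first part) for the letter `0`: `L1 β k (ty W 0) a` (`FC.ext` of `FC.ofFIC β` or
`asm_congr` for the counts); the same for the letter `1`. -/
def NgmStmt : Prop :=
  ∀ β : FIC, CapP β → NC2 β → ∀ (k : ℕ) (a b : ℕ → ℕ) (w : List ℕ), PT β k a b w →
    ∃ W : ℕ → List ℕ, w = asm k W ∧ Two01 k W ∧ L1 β k (ty W 0) a ∧ L1 β k (ty W 1) b

/-- **NVG** (uses MVO.ONE, NBF).  When is `β` contained in the congruence of a language.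
PROOF.  `le_gaml`.  `u = asm k U` in the language, `RR β u v`; NBF: `v = asm k V`, `Two01 k V`; ONE:
`L1 β k (ty U c) (ty V c)` for `c = 0, 1`; `Clo`: `Sat k A (ty V 0)`, `Sat k B (ty V 1)`; the last hypothesis:
`S (V i)`. -/
def NvgStmt : Prop :=
  ∀ β : FIC, CapP β → NC2 β → ∀ (k : ℕ) (A B : ℕ → Cd) (S : List ℕ → Prop) (i : ℕ), Clo β k A →
    Clo β k B → (∀ U V : ℕ → List ℕ, Two01 k U → Two01 k V → Sat k A (ty U 0) →
      Sat k B (ty U 1) → Sat k A (ty V 0) → Sat k B (ty V 1) → RR β (asm k U) (asm k V) →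
        S (U i) → S (V i)) → β ≤ LC k A B S i

/-- **NPE** (uses MWS.CHK, NGA, NGM).  The pentagon (Lemma N).
PROOF.  `Γ := gaml (PT β k a' b')`, `β ≤ Γ` (`le_gaml`, `RR.filter`).  `ρ := FIC.inf (LC k A1 B1 S i) Γ`,
`σ := LC k A2 B2 S i`, `τ := Γ`, `P w := PT β k a' b' w ∧ ∃ W, w = asm k W ∧ Two01 k W ∧ S (W i)`;
`u := asm k (wd i a' b' st)`, `v := asm k (wd i a' b' (!st))`.  `pent` gives `P v`, and `uniq` gives
`S (wd i a' b' (!st) i)`.  Its hypotheses:
`h1` (`ρ` preserves `P`): let `RR ρ x y`, `P x`.  `PT y` by `gaml_keep` for `Γ`.  `x = asm k W`, `S (W i)`; NGM for `x`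
(and `uniq`): the types of `W` are `L1 β`-related to `a'`, `b'`, so they satisfy `A1`, `B1`; so `x` is in the
language `LG k A1 B1 S i`, so `y` is (`gaml_keep`): `y = asm k W'` with `S (W' i)`.
`h2`: the same for `σ` with `A2`, `B2`; `PT y` because `(x, y) ∈ τ`.
`ht`: NGA for the two families `wd i a' b' st`, `wd i a' b' (!st)` (same counts, `Two01`).
`hs`: `u ~σ asm k (wd i a b st) ~ρ asm k (wd i a b (!st)) ~σ v`.  The `ρ` step: hypothesis and NGA.  The `σ`
steps: CHK (for `θ = σ`) twice: block `j` of `wd i a b st` is `P ++ 0^(a j) ++ Q` with `P = []`, `Q = 1^(b j)`, or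
`P = 1^(b j)`, `Q = []` (if `j = i` and `st`); change `a` to `a'` with `L1 σ k a a'` and the letter `c = 0`; then
the same for the letter `1` and `b`, `b'`.
`P u`: `asm_filter`: the filtered words are `mw k a'` and `asm k (1^(b' j))`; `RR.refl`. -/
def NpeStmt : Prop :=
  ∀ β : FIC, CapP β → NC2 β → ModF β → ∀ (k i : ℕ) (A1 B1 A2 B2 : ℕ → Cd)
    (S : List ℕ → Prop) (st : Bool) (a a' b b' : ℕ → ℕ), i ≤ k → β ≤ LC k A1 B1 S i →
      β ≤ LC k A2 B2 S i → 2 ≤ deg k a → 2 ≤ deg k a' → 2 ≤ deg k b → 2 ≤ deg k b' →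
        L1 (LC k A2 B2 S i) k a a' → L1 (LC k A2 B2 S i) k b b' →
          RR (LC k A1 B1 S i) (asm k (wd i a b st)) (asm k (wd i a b (!st))) →
            (∀ c, L1 β k a' c → Sat k A1 c ∧ Sat k A2 c) →
              (∀ c, L1 β k b' c → Sat k B1 c ∧ Sat k B2 c) →
                S (wd i a' b' st i) → S (wd i a' b' (!st) i)

/-- **NIB** (uses nothing).  The computable forms.
PROOF.  For `BMap k1 k f` let `l := (List.range (k1 + 1)).map f`.  `l ∈ mps (k1 + 1) 0 k`: more generally a
list `m` of length `n` which is weakly increasing with entries in `lo..k` is in `mps n lo k` (induction on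
`n`: head `x` in `List.range' lo (k + 1 - lo)`, tail in `mps n x k`).  `l.getD i 0 = f i` for `i ≤ k1`, so
`pl k1 l a j = psh k1 f a j` (`psh` is the sum over `Finset.range (k1 + 1)`; `List.sum` of a map over
`List.range`: `Finset.sum_range`-like, induction), and `intoB k1 k l a A = true` iff `Into k1 k f a A`. -/
def NibStmt : Prop :=
  (∀ (k1 k : ℕ) (a b : ℕ → ℕ) (A B : ℕ → Cd), incB k1 k a b A B = true → IncC k1 k a b A B) ∧
  ∀ (k1 k : ℕ) (c c' : ℕ → ℕ) (A : ℕ → Cd), kapB k1 k c c' A = true → KapC k1 k c c' A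

/-- **NTB** (uses MWL.HVP, MWL.TA1, MWL.TA2).  The absorption table in computable form.
PROOF.  The case distinction of `tb`.  (1) some `a p ≥ 2` with `p ≤ i`: if `a i ≠ 0`: `Hv a i`, the list is empty
and HVP gives absorption; if `a i = 0` then `p < i`: TA1 (1) or (2) (`F` if a block behind `i` is not
empty, else `E`).  (2) all `a p ≤ 1` for `p ≤ i`, and an entry `≥ 2` behind: `a i = 0`: TA1 (3), `GG n R l` is
by definition `Has G` (`l = 0`) or `Has (D (l-1)) ∧ Has F`; `a i = 1`: TA1 (4).  (3) all entries of `a` on `0..k`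
are `≤ 1`: TA2.  (`tb` tests the conditions with `List.any` over `List.range`.) -/
def NtbStmt : Prop :=
  ∀ (n : ℕ) (R : FC), LR n R → ∀ (k : ℕ) (a : ℕ → ℕ) (i : ℕ), i ≤ k → 2 ≤ deg k a →
    (Ab n R k a i ↔ ∀ b ∈ tb k a i, Has n R b)

/-- **NCL** (uses MWL.TRN, MWL.KEY, NTB).  The closure test.
PROOF.  Let `Sat k A a`, `R.R k a c` and not `Sat k A c`.  Let `l`, `m` be the lists of the `min (a j) 2`,
`min (c j) 2`, `j = 0..k`; both are in `vecs (k + 1)`; `vl l j = min (a j) 2` for `j ≤ k`.  All conditions depend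
only on `min n 2`: `satB k A (vl l) = true`, `satB k A (vl m) = false`.  If `deg k (vl l) ≤ 1`, then `deg k a ≤ 1`
(an entry `≥ 2` would give `2`; so the entries agree), `ND`: `a j = c j` for `j ≤ k`, contradiction; the same
if `deg k (vl m) ≤ 1` (symmetry).  So `cloB` gives `i ≤ k` with `vl l i ≠ vl m i` and a bit `b` with
`bcode b ∈ X` in `tb k (vl l) i` or in `tb k (vl m) i`.  `a i ≠ c i`, so by KEY `a` absorbs at `i` and so does
`c` (TRN (1)).  `tb k (vl l) i = tb k a i`?  Not always: `deg` may differ; but if some entry of `a` on `0..k` is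
`≥ 2` then `tb` does not use `deg`, and otherwise `vl l = a` on `0..k`; `lb`, the tests `≥ 1`, `≥ 2`, `= 0` agree;
so yes.  NTB (`2 ≤ deg k a`): all bits of `tb k a i` and of `tb k c i` hold: contradiction to the
hypothesis on `X`. -/
def NclStmt : Prop :=
  ∀ (n : ℕ) (R : FC), LR n R → ND R → ∀ (X : List ℕ) (k : ℕ) (A : ℕ → Cd),
    (∀ b : Bit, bcode b ∈ X → ¬ Has n R b) → cloB X k A = true →
      ∀ a c : ℕ → ℕ, Sat k A a → R.R k a c → Sat k A c

end Pool.Agent.MWN
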