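import Pool.Agent.MWN.DefsH

/-!
# Block MWN, part H: the necessity clauses of base (h)

Every row: file `Pool/Agent/HelperNN_MWN/XXX.lean`, import `Pool.Agent.MWN.StmtsH`, namespace
`Pool.Agent.MWN.HNN`, theorem `xxx (hypotheses = rows in uses, in this order) : XxxStmt`.
`HB β` = two letter facts of base (h); `Iso3 β`: `xyx` is an isoterm.  `Oh β b`: the bit `b` of the
one letter lattice holds (`Oh β (Bit.D 0)`: `RR β (mw 1 (v2 1 2)) (mw 1 (ad 1 (v2 1 2) 0))`, i.e.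
`[0,2,0,0] ≈ [0,0,0,2,0,0]`; all `mw` and `asm` of concrete families are computed by `rfl`, `decide`
or `simp [asm]`).  The block words `asm k (cs i A B st)`, `asm k (cn i A B st)` of concrete data are
concrete lists.
-/

namespace Pool.Agent.MWN

open Pool.Agent.Helper14_MV Pool.Agent.Helper2_MV Pool.Agent.MVO Pool.Agent.MWL Pool.Agent.MWS
  Pool.Agent.MWF

/-- **NHB** (uses MWS.CAP, MWS.NDN, MWS.LRN).  Basic facts.
PROOF.  `ic` of `ApI`: `hst` with `k = 0`, `U 0 = [0,1,0,1]`, `V 0 = [1,0,1,0]` (same counts; both lists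
contain `[0,1]` and `[1,0]` as sublists).  `NC2 β`: from `RR β [0,1] [1,0]` append `[0]`:
`RR β [0,1,0] [1,0,0]`, contradiction to `Iso3`.  `CapP β`: CAP for `θ = β`.  `LR 1 (FC.ofFIC β)`: LRN with
`BaseR β`.  `ND`: NDN.  The last: `Oh β (Bit.J 2)` is `RR β [0,2,0] [0,2,0,0,0]` (`mw 1` of `(1,1)`, `(1,3)`);
rename `2 ↦ 1`: contradiction to `Iso3`. -/
def NhbStmt : Prop :=
  ∀ β : FIC, HB β → Iso3 β → BaseR β ∧ NC2 β ∧ CapP β ∧ LR 1 (FC.ofFIC β) ∧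
    ND (FC.ofFIC β) ∧ ¬ Oh β (Bit.J 2)

/-- **NIS** (uses MWL.ABS, MWL.TRN, MWS.CHK, NHB).  Insertion of an absorbing letter.
PROOF.  `a := wo i (ty U c)`; `a'` := `a` with all entries `≥ 2` replaced by `2`.  `Nq 1 k a a'`, so `L1 β k a a'`
(ABS, second part) and `Ab 1 (FC.ofFIC β) k a' i` (TRN (1)): `L1 β k a' (ad 1 a' i)`, where `ad 1 a' i` is `2` in
block `i`.  For `t ≤ k`, `t ≠ i`, write `U t = P t ++ c^(a t) ++ Q t` with `c` not in.. as follows: `a t = 0`: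
`P t = U t`, `Q t = []`; `a t = 1`: `U t = P t ++ c :: Q t`; `a t ≥ 2`: `U t = P t ++ c :: Q t` (first
occurrence), and let `U' t = P t ++ [c, c] ++ Q t`; in all other blocks `U' t = U t`.  `hst`: `asm k U ≈
asm k U'` (same shapes; doubling a letter does not change `Fst`: `[d, e]` with `d ≠ e` is a sublist of
`P ++ c :: Q` iff of `P ++ [c, c] ++ Q`).  CHK for `a'`, `ad 1 a' i` with the chunks in `t ≠ i`, and in block
`i` twice: `P i = U i`, `Q i = []` gives `asm k U' ≈ asm k (update U' i (U i ++ [c,c]))`, then `P i = []`,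
`Q i = U i ++ [c,c]`.  At the end remove the doublings by `hst` (blocks `t ≠ i`). -/
def NisStmt : Prop :=
  ∀ β : FIC, HB β → Iso3 β → ∀ (k : ℕ) (U : ℕ → List ℕ) (c i : ℕ), OkB k U → Two01 k U →
    (c = 0 ∨ c = 1) → i ≤ k → 2 ≤ deg k (wo i (ty U c)) →
      Ab 1 (FC.ofFIC β) k (wo i (ty U c)) i →
        RR β (asm k U) (asm k (Function.update U i (c :: c :: (U i ++ [c, c]))))

/-- **NCO** (uses MWL.ABS, MWL.TRN, NHB, NIS).  Collapse of the states.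
PROOF.  NIS for `U` and for `V`: the entries of `wo j (ty U c)` and `wo j (ty V c)` are equal or both `≥ 2`,
so `Nq 1 k` holds, the vectors are related (ABS, second part, `LR 1` by NHB) and absorb in the same
blocks (TRN (1)).  Let `U'`, `V'` be the two words with `cc` at both ends of block `j`.  Same shapes, `OkB`,
`Two01`.  `hst` for `U'`, `V'`: if `i` is an only common block, then `i = j`, because block `j` of `U'` contains
`c` and `d`; and `[0,1]` and `[1,0]` are sublists of `c c .. d .. c c`, in both words: the states agree. -/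
def NcoStmt : Prop :=
  ∀ β : FIC, HB β → Iso3 β → ∀ (k : ℕ) (U V : ℕ → List ℕ) (c d j : ℕ), OkB k U → OkB k V →
    Two01 k U → Two01 k V → Sh k (ty U 0) (ty V 0) → Sh k (ty U 1) (ty V 1) →
      (c = 0 ∧ d = 1 ∨ c = 1 ∧ d = 0) → j ≤ k → d ∈ U j → 2 ≤ deg k (wo j (ty U c)) →
        2 ≤ deg k (wo j (ty V c)) →
        Ab 1 (FC.ofFIC β) k (wo j (ty U c)) j → RR β (asm k U) (asm k V)

/-- **NEX** (uses nothing).  An exchange in the language gives the exchange for the largest types.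
PROOF.  For `t ≤ k` let `m t := 2` if `A t` is `pos`, `two` or `any`, else `0`, and `n t` the same for `B`.
Insert at the ends of the blocks (`rr_ins'`): block `i`: `0^(m i)` at the left and `1^(n i)` at the right if
`st = false`; `1^(n i)` at the left and `0^(m i)` at the right if `st = true`; in a block `t ≠ i` `0^(m t)` at the
left and `1^(n t)` at the right (there at most one of the letters occurs, as `A t = z` or `B t = z`).
Let `U'`, `V'` be the new families.  They have the shape of `cs i A B st` and of `cn i A B st`: `= 0`, `= 1`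
stay, all other counts are `≥ 2`, like `h = 2`.  (`OkB`: the degrees of `h ∘ A`, `h ∘ B` are `≥ 2`.)
States in block `i`: `U' i` is in state `st`, `V' i` is not.  `hst` for `U'` and `cs i A B st`: the only common
block can only be `i` (`Onl`), the states agree: both are in state `st`, and both are not in the other
state (both letters occur).  `hst` for `V'` and `cn i A B st`: both are not in state `st`; the other state
`!st`: if `A i` and `B i` are both `one`, `V' i` has one `0` and one `1` and is not in state `st`, so it is in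
state `!st`, like `nb 1 1 st`.  Otherwise one letter, say `0`, has `m i = 2`: the block starts with `0 0` if
`st = false` (ends with `0 0` if `st = true`); if it were in state `!st` (all `1` before all `0` if
`st = false`), then no `1` would occur behind.. the first letter is `0` and `1` occurs behind it: not in
state `!st`; the same for `1` with `n i = 2` (the last letter is `1` and `0` occurs in front).  The blocks
`[1,0,1]`, `[0,1,0]`, `[0,1,0,1]` are in no state either. -/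
def NexStmt : Prop :=
  ∀ β : FIC, HB β → ∀ (k i : ℕ) (A B : ℕ → Cd) (st : Bool) (U V : ℕ → List ℕ), i ≤ k →
    Onl k i A B → A i ≠ Cd.z → B i ≠ Cd.z → 2 ≤ deg k (fun j => (A j).h) →
      2 ≤ deg k (fun j => (B j).h) → Two01 k U → Two01 k V → Sat k A (ty U 0) →
        Sat k B (ty U 1) → Sat k A (ty V 0) → Sat k B (ty V 1) → 0 ∈ U i → 1 ∈ U i →
          RR β (asm k U) (asm k V) → Fst st (U i) → ¬ Fst st (V i) →
            RR β (asm k (cs i A B st)) (asm k (cn i A B st))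

/-- **NPH** (uses NIN, NKA, NVG, NPE, NIB, NHB, NEX).  The pentagon in base (h).
PROOF.  Suppose neither of the two identities is in `β`.  Unfold `penB` (`Bool.and_eq_true`,
`List.all_eq_true`).  `2 ≤ deg k (h ∘ A1)`: if all `a' t ≤ 1` then `(A1 t).h ≥ a' t`; if `a' t ≥ 2` then
`(A1 t).h = 2`; the same for the others.  `β ≤ LC k A1 B1 (Fst st) i`: NVG; its last hypothesis: if `Fst st (U i)` and not
`Fst st (V i)`, then `V i` contains `0` and `1`, so `A1 i`, `B1 i ≠ z`; if `0 ∈ U i` and `1 ∈ U i`: NEX gives the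
first identity; if one letter is missing in `U i` (possible for the condition `any`; `A1 i`, `B1 i` are
excluded from this by the hypothesis `A1 i ≠ any` etc.) : does not occur, because `Sat` with `one`, `pos`,
`two` gives at least one letter.  The same for `A2`, `B2`.  NIB: `IncC`, `KapC` from the tests.  NKA: `L1 (LC k
A2 B2 (Fst st) i) k a a'` and `k b b'` (supports agree).  NIN (for `U = wd i a b st`, `V = wd i a b (!st)`;
`ty U 0 = a`, `ty U 1 = b`): `RR (LC k A1 B1 ..)`.  `Clo` and `satB` of `a'`, `b'` give the closure hypotheses of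
NPE.  `Fst st (wd i a' b' st i)` holds, so NPE gives `Fst st (wd i a' b' (!st) i)`: but this block
contains all letters in the other order and `a' i, b' i ≥ 1`: contradiction. -/
def NphStmt : Prop :=
  ∀ β : FIC, HB β → Iso3 β → ModF β → ∀ (k i : ℕ) (A1 B1 A2 B2 : ℕ → Cd) (st : Bool)
    (a a' b b' : ℕ → ℕ), penB k i A1 B1 A2 B2 a a' b b' = true → A1 i ≠ Cd.any →
      B1 i ≠ Cd.any → A2 i ≠ Cd.any → B2 i ≠ Cd.any → Clo β k A1 → Clo β k B1 → Clo β k A2 →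
        Clo β k B2 → RR β (asm k (cs i A1 B1 st)) (asm k (cn i A1 B1 st)) ∨
          RR β (asm k (cs i A2 B2 st)) (asm k (cn i A2 B2 st))

/-- **NCX** (uses NCL, NHB).  The closure test for `β`.
PROOF.  NCL with `n = 1`, `R = FC.ofFIC β` (`L1 β k a c` is `R.R k a c`).  For a bit `b` with
`bcode b ∈ [8, ..]`: `bcode` is injective (`E 0, F 1, G 2, D l: 2l+3, J q: 2q+4` with `q ≥ 2`; for `J 0`, `J 1`
the codes are `4`, `6`: not used), so the hypothesis on the codes of the list `X` is checked bit by bit.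
-/
def NcxStmt : Prop :=
  ∀ β : FIC, HB β → Iso3 β → ∀ (X : List ℕ) (k : ℕ) (A : ℕ → Cd),
    (∀ x ∈ X, x = 8 ∨ (x = 0 ∧ ¬ Oh β Bit.E) ∨ (x = 1 ∧ ¬ Oh β Bit.F) ∨ (x = 2 ∧ ¬ Oh β Bit.G) ∨
      (x = 3 ∧ ¬ Oh β (Bit.D 0)) ∨ (x = 5 ∧ ¬ Oh β (Bit.D 1)) ∨ (x = 10 ∧ ¬ Oh β (Bit.J 3))) →
      cloB X k A = true → Clo β k A

/-- **NDD** (uses nothing).  The identity `D 0` in two letter words: a light letter in a block `i`
followed by a heavy block can be made heavy.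
PROOF.  `Oh β (Bit.D 0)`: `RR β [0,2,0,0] [0,0,0,2,0,0]`.  Substitute `0 ↦ [c]`, `2 ↦ w`, add the context:
`RR β (p ++ c :: (w ++ c :: c :: q)) (p ++ c :: c :: c :: (w ++ c :: c :: q))`; then `x³ ≈ x²` (`HB.ap`,
`RR.sub`, `RR.append`). -/
def NddStmt : Prop :=
  ∀ β : FIC, HB β → Oh β (Bit.D 0) → ∀ (p w q : List ℕ) (c : ℕ),
    RR β (p ++ c :: (w ++ c :: c :: q)) (p ++ c :: c :: (w ++ c :: c :: q))

/-! ### the clauses -/

/-- **N1A** (uses NPH, NCX, NCO).  Clause c1 without `D 0`.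
PROOF.  Suppose `¬ C1 β st`.  Then `¬ E`: otherwise NCO with `k = 1`, `U = cs 0 (cd2 one pos) (cd2 two z) st`,
`V = cn 0 .. st` (the two words of `C1`), `c = 1`, `d = 0`, `j = 1`: `wo 1` of the type of `1` is `(2, 0)`, which
absorbs at `1` by `E` (`FC.ext`), gives `C1`.  NPH: `k = 1`, `i = 0`, `A1 = (one, one)`, `B1 = (two, z)`,
`A2 = (one, pos)`, `B2 = (two, z)`, `a = v2 1 2`, `a' = v2 1 1`, `b = b' = v2 2 0` (`penB` by `decide +kernel`).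
Closures by NCX: `cloB [8] 1 A1`, `cloB [8, 0] 1 B1`, `cloB [8, 3] 1 A2` (`decide +kernel`).  The first
alternative: `[0,1,1,2,0] ≈ [1,0,1,2,0]` resp. `[1,1,0,2,0] ≈ [1,0,1,2,0]`: append `[0]`: `C1`.  The second is
`C1 β st`. -/
def N1aStmt : Prop :=
  ∀ β : FIC, HB β → Iso3 β → ModF β → ¬ Oh β (Bit.D 0) → ∀ st, C1 β st

/-- **N1B** (uses NPH, NCX, NCO, NDD).  Clause c1 with `D 0`.
PROOF.  Suppose `¬ C1 β st`.  `¬ E` as in N1A.  `¬ G`: NCO with `U`, `V` as in N1A, `c = 0`, `d = 1`, `j = 0`: the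
type of `0` without block `0` is `(0, 2)`, which absorbs at `0` by `G`.  NPH: `A1 = (one, one)`,
`B1 = (two, z)`, `A2 = (pos, pos)`, `B2 = (two, z)`, `a = v2 2 2`, `a' = v2 1 1`, `b = b' = v2 2 0`.  Closures:
`cloB [8]`, `cloB [8, 0]`, `cloB [8, 0, 2] 1 (cd2 pos pos)`.  First alternative as in N1A.  Second:
`st = false`: `[0,0,1,1,2,0,0] ≈ [0,1,0,1,2,0,0]`; `[0,1,1,2,0,0] ≈ [0,0,1,1,2,0,0]` by NDD; `[0,1,0,1,2,0,0] ≈
[1,0,0,1,2,0,0]` by `hst` (`k = 1`, same counts, no state in block `0`), `≈ [1,0,1,2,0,0]` by NDD.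
`st = true`: `[1,1,0,2,0,0] ≈ [1,1,0,0,2,0,0] ≈ [0,1,0,1,2,0,0] ≈ [1,0,0,1,2,0,0] ≈ [1,0,1,2,0,0]`. -/
def N1bStmt : Prop :=
  ∀ β : FIC, HB β → Iso3 β → ModF β → Oh β (Bit.D 0) → ∀ st, C1 β st

/-- **N2X** (uses NPH, NCX, NCO).  Clause c2 without `D 0`.
PROOF.  Suppose `¬ C2 β`.  `¬ E`: NCO with `k = 2`, the two words of `C2`, `c = 0`, `d = 1`, `j = 2` (type of `0`:
`(1,2,0)`; it absorbs at `2` by `E`: push `0 ↦ 1, 1 ↦ 2` and add `(1,0,0)`; or NTB-like; `FC.push`, `FC.add`,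
`FC.ext`).  NPH: `k = 2`, `i = 0`, `st = false`, `A1 = (one, one, z)`, `B1 = (one, z, one)`,
`A2 = (one, pos, z)`, `B2 = (one, z, pos)`, `a = v3 1 2 0`, `a' = v3 1 1 0`, `b = v3 1 0 2`, `b' = v3 1 0 1`.
Closures: `cloB [8] 2 A1`, `cloB [8] 2 B1`, `cloB [8,3,0] 2 A2`, `cloB [8,3] 2 B2`.  First alternative:
`[0,1,2,0,3,1] ≈ [1,0,2,0,3,1]`: substitute `3 ↦ [0,3]` and append `[1]`: `C2`.  The second is `C2`. -/
def N2xStmt : Prop := ∀ β : FIC, HB β → Iso3 β → ModF β → ¬ Oh β (Bit.D 0) → C2 β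

/-- **N3A** (uses NPH, NCX, NCO, MWL.ARR).
PROOF.  Suppose `¬ C3a β st`.  `¬ F`: NCO, `k = 2`, the two words of `C3a β st`, `c = 0`, `d = 1`, `j = 1` (type of
`0`: `(2,0,2)`).  So `¬ E` (ARR) and `¬ G` (ARR: `G → D 0`).  NPH: `k = 2`, `i = 0`, `A1 = (one, z, pos)`,
`B1 = B2 = (one, one, z)`, `A2 = (pos, z, pos)`, `a = v3 2 0 2`, `a' = v3 1 0 2`, `b = b' = v3 1 1 0`.  Closures:
`cloB [8,3] 2 A1`, `cloB [8] 2 B1`, `cloB [8,3,1,0,2] 2 A2`.  First alternative: `st = false`: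
`[0,1,2,1,3,0,0] ≈ [1,0,2,1,3,0,0]`, put `0` in front; `st = true`: `[1,0,2,1,3,0,0] ≈ [0,1,2,1,3,0,0]`,
substitute `2 ↦ [0,2]`.  The second is `C3a β st`. -/
def N3aStmt : Prop := ∀ β : FIC, HB β → Iso3 β → ModF β → ¬ Oh β (Bit.D 0) → ∀ st, C3a β st

/-- **N3B** (uses NPH, NCX, MWL.ARR).
PROOF.  `¬ G` (ARR: `G → D 0`).  NPH: `k = 2`, `i = 1`, `A1 = (z, one, pos)`, `B1 = B2 = (one, one, z)`,
`A2 = (z, pos, any)`, `a = v3 0 2 2`, `a' = v3 0 1 2`, `b = b' = v3 1 1 0`.  Closures: `cloB [8,3,2] 2 A1`,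
`cloB [8] 2 B1`, `cloB [8,3,2] 2 A2`.  First alternative: `st = false`: `[1,2,0,1,3,0,0] ≈ [1,2,1,0,3,0,0]`,
substitute `2 ↦ [2,0]`; `st = true`: `[1,2,1,0,3,0,0] ≈ [1,2,0,1,3,0,0]`, substitute `3 ↦ [0,3]`.  The second is
`C3b β st`. -/
def N3bStmt : Prop := ∀ β : FIC, HB β → Iso3 β → ModF β → ¬ Oh β (Bit.D 0) → ∀ st, C3b β st

/-- **N3C** (uses NPH, NCX, NCO, MWL.ARR).
PROOF.  Suppose `¬ C3c β st`.  `¬ E`: NCO, `k = 2`, the two words of `C3c β st`, `c = 0`, `d = 1`, `j = 2` (type of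
`0`: `(2,2,0)`).  `¬ G` (ARR).  NPH: `k = 2`, `i = 0`, `A1 = (one, pos, z)`, `B1 = B2 = (one, z, one)`,
`A2 = (pos, pos, z)`, `a = v3 2 2 0`, `a' = v3 1 2 0`, `b = b' = v3 1 0 1`.  Closures: `cloB [8,3,0] 2 A1`,
`cloB [8] 2 B1`, `cloB [8,3,2,0] 2 A2`.  First alternative: `[0,1,2,0,0,3,1] ≈ [1,0,2,0,0,3,1]` (or reversed for
`st = true`): `st = false`: put `0` in front; `st = true`: substitute `2 ↦ [0,2]`.  The second is
`C3c β st`. -/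
def N3cStmt : Prop := ∀ β : FIC, HB β → Iso3 β → ModF β → ¬ Oh β (Bit.D 0) → ∀ st, C3c β st

/-- **N3D** (uses NPH, NCX, NCO, MWL.ARR).
PROOF.  Suppose `¬ C3d β st`.  `¬ F`: NCO, `k = 2`, the two words of `C3d β st`, `c = 0`, `d = 1`, `j = 1` (type of
`0`: `(2,0,2)`; `1` occurs in block `1`).  `¬ E`, `¬ G` (ARR).  NPH: `k = 2`, `i = 2`, `A1 = (one, z, pos)`,
`B1 = B2 = (z, one, one)`, `A2 = (pos, z, pos)`, `a = v3 2 0 2`, `a' = v3 1 0 2`, `b = b' = v3 0 1 1`.  Closures: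
`cloB [8,3] 2 A1`, `cloB [8] 2 B1`, `cloB [8,3,1,0,2] 2 A2`.  First alternative: `[0,2,1,3,0,0,1] ≈
[0,2,1,3,0,1,0]` (`st = false`), `[0,2,1,3,1,0,0] ≈ [0,2,1,3,0,1,0]` (`st = true`): put `0` in front.  The
second is `C3d β st`. -/
def N3dStmt : Prop := ∀ β : FIC, HB β → Iso3 β → ModF β → ¬ Oh β (Bit.D 0) → ∀ st, C3d β st

/-- **N4A** (uses NPH, NCX, NCO, NDD, MWL.ARR).
PROOF.  Suppose `¬ C4a β`.  Case `¬ D 0`: NPH with `k = 3`, `i = 0`, `st = false`, `A1 = (one, z, one, one)`,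
`B1 = B2 = (one, one, z, z)`, `A2 = (one, z, any, any)`, `a = v4 1 0 2 2`, `a' = v4 1 0 1 1`,
`b = b' = v4 1 1 0 0`.  Closures: `cloB [8,10] 3 A1`, `cloB [8] 3 B1`, `cloB [8,10,3] 3 A2`.  First alternative:
`[0,1,2,1,3,0,4,0] ≈ [1,0,2,1,3,0,4,0]`: delete `4`: `C4a`.  Second: `[0,1,2,1,3,0,0,4,0,0] ≈
[1,0,2,1,3,0,0,4,0,0]`: delete `4` and replace `0000` by `00` (`ap`): `C4a`.
Case `D 0`: for each `st` show `C3a β st`.  Suppose not; `¬ F` by NCO as in N3A, so `¬ E`, `¬ G` (ARR: `E → F`,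
`G → F`).  NPH with `A2 = (pos, z, any, any)`, `a = v4 2 0 2 2`, the rest as before; closures: `cloB [8,10] 3 A1`,
`cloB [8] 3 B1`, `cloB [8,10,0,1,2] 3 A2`.  First alternative (both `st`): `C4a` as above.  Second: delete `4`,
`0000 ≈ 00`: `C3a β st`.  With `C3a β false`, `C3a β true` and NDD: `[0,1,2,1,3,0,0] ≈ [0,0,1,2,1,3,0,0] ≈
[0,1,0,2,1,3,0,0] ≈ [1,0,0,2,1,3,0,0] ≈ [1,0,2,1,3,0,0]`. -/
def N4aStmt : Prop := ∀ β : FIC, HB β → Iso3 β → ModF β → ¬ Oh β (Bit.J 3) → C4a β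

/-- **N4B** (uses NPH, NCX, NCO, NDD, MWL.ARR).
PROOF.  Suppose `¬ C4b β`.  Case `¬ D 0` (so `¬ G`): NPH with `k = 3`, `i = 1`, `st = false`,
`A1 = (z, one, one, one)`, `B1 = B2 = (one, one, z, z)`, `A2 = (z, one, any, any)`, `a = v4 0 1 2 2`,
`a' = v4 0 1 1 1`, `b = b' = v4 1 1 0 0`.  Closures: `cloB [8,10] 3 A1`, `cloB [8] 3 B1`, `cloB [8,10,3,2] 3 A2`.
First: `[1,2,0,1,3,0,4,0] ≈ [1,2,1,0,3,0,4,0]`: delete `4`: `C4b`.  Second: `[1,2,0,1,3,0,0,4,0,0] ≈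
[1,2,1,0,3,0,0,4,0,0]`: delete `4`, `0000 ≈ 00`.
Case `D 0`: for each `st` show `C3b β st`.  Suppose not; `¬ G`: NCO, `k = 2`, the two words of `C3b β st`,
`c = 0`, `d = 1`, `j = 0` (type of `0`: `(0,2,2)`, it absorbs at `0` by `G`: merge-free: push `0 ↦ 0, 1 ↦ 1` and
add `(0,0,2)`).  NPH with `A2 = (z, pos, any, any)`, `a = v4 0 2 2 2`; closures `cloB [8,10] 3 A1`,
`cloB [8] 3 B1`, `cloB [8,10,2] 3 A2`.  First alternative: `C4b`.  Second: delete `4`, `0000 ≈ 00`: `C3b β st`.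
Then `[1,2,0,1,3,0,0] ≈ [1,2,0,0,1,3,0,0] ≈ [1,2,0,1,0,3,0,0] ≈ [1,2,1,0,0,3,0,0] ≈ [1,2,1,0,3,0,0]` (NDD). -/
def N4bStmt : Prop := ∀ β : FIC, HB β → Iso3 β → ModF β → ¬ Oh β (Bit.J 3) → C4b β

/-- **N4C** (uses NPH, NCX, NCO, NDD, MWL.ARR).
PROOF.  Suppose `¬ C4c β`.  Case `¬ D 0`: `¬ E`: NCO, `k = 2`, the two words of `C4c`, `c = 0`, `d = 1`, `j = 2`
(type of `0`: `(1,2,0)`).  NPH with `k = 3`, `i = 0`, `st = false`, `A1 = (one, one, one, z)`,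
`B1 = B2 = (one, z, z, one)`, `A2 = (one, any, any, z)`, `a = v4 1 2 2 0`, `a' = v4 1 1 1 0`,
`b = b' = v4 1 0 0 1`.  Closures: `cloB [8,10] 3 A1`, `cloB [8] 3 B1`, `cloB [8,10,3,0] 3 A2`.  First:
`[0,1,2,0,3,0,4,1] ≈ [1,0,2,0,3,0,4,1]`: delete `3`, rename `4 ↦ 3`: `C4c`.  Second:
`[0,1,2,0,0,3,0,0,4,1] ≈ [1,0,2,0,0,3,0,0,4,1]`: the same and `0000 ≈ 00`.
Case `D 0`: for each `st` show `C3c β st`.  Suppose not; `¬ E`: NCO, the two words of `C3c β st`, `c = 0`, `d = 1`,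
`j = 2` (type `(2,2,0)`); `¬ G`: NCO, `c = 0`, `d = 1`, `j = 0` (`wo 0`: `(0,2,0)`, absorbs at `0` by `G`).  NPH with
`A2 = (pos, any, any, z)`, `a = v4 2 2 2 0`; closures `cloB [8,10] 3 A1`, `cloB [8] 3 B1`,
`cloB [8,10,0,2] 3 A2`.  First alternative: `C4c`.  Second: delete `3`, rename, `0000 ≈ 00`: `C3c β st`.  Then
`[0,1,2,0,0,3,1] ≈ [0,0,1,2,0,0,3,1] ≈ [0,1,0,2,..] ≈ [1,0,0,2,0,0,3,1] ≈ [1,0,2,0,0,3,1]` (NDD). -/
def N4cStmt : Prop := ∀ β : FIC, HB β → Iso3 β → ModF β → ¬ Oh β (Bit.J 3) → C4c β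

/-- **N4D** (uses NPH, NCX, NCO).
PROOF.  Suppose `¬ C4d β`.  `¬ E`: NCO, `k = 1`, the two words of `C4d`, `c = 0`, `d = 1`, `j = 1` (type of `0`:
`(2,0)`).  NPH with `k = 3`, `i = 2`, `st = false`, `A1 = (one, one, one, z)`, `B1 = B2 = (z, z, one, one)`,
`A2 = (any, any, pos, z)`, `a = v4 2 2 2 0`, `a' = v4 1 1 1 0`, `b = b' = v4 0 0 1 1`.  Closures:
`cloB [8,10] 3 A1`, `cloB [8] 3 B1`, `cloB [8,10,0] 3 A2`.  First: `[0,2,0,3,0,1,4,1] ≈ [0,2,0,3,1,0,4,1]`: delete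
`2`, `3`, rename `4 ↦ 2`: `[0,0,0,1,2,1] ≈ [0,0,1,0,2,1]`, and `000 ≈ 00` and `hst` (`k = 1`):
`C4d`.  Second: `[0,0,2,0,0,3,0,0,1,4,1] ≈ [0,0,2,0,0,3,0,1,0,4,1]`: the same. -/
def N4dStmt : Prop := ∀ β : FIC, HB β → Iso3 β → ModF β → ¬ Oh β (Bit.J 3) → C4d β

/-- **N4E** (uses NPH, NCX, NCO).
PROOF.  Suppose `¬ C4e β`.  `¬ G`: NCO, `k = 1`, the two words of `C4e`, `c = 0`, `d = 1`, `j = 0` (type of `0`:
`(0,2)`).  `¬ E`: `E` is `RR β [0,0,2] [0,0,2,0,0]` (`mw 1 (v2 2 0)` and `mw 1 (v2 2 2)`); substitute `2 ↦ [1]`,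
put `[1,2]` in front: `[1,2,0,0,1] ≈ [1,2,0,0,1,0,0] ≈ [1,2,0,1,0]` (`hst`, `k = 1`, no state in block `1`;
shape of `0` in block `1`: `≥ 2` in both): `C4e`.  NPH with `k = 3`, `i = 3`, `st = false`,
`A1 = (z, one, one, one)`, `B1 = B2 = (one, z, z, one)`, `A2 = (z, any, any, pos)`, `a = v4 0 2 2 2`,
`a' = v4 0 1 1 1`, `b = b' = v4 1 0 0 1`.  Closures: `cloB [8,10] 3 A1`, `cloB [8] 3 B1`,
`cloB [8,10,2,0] 3 A2`.  First: `[1,2,0,3,0,4,0,1] ≈ [1,2,0,3,0,4,1,0]`: delete `3`, `4`: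
`[1,2,0,0,0,1] ≈ [1,2,0,0,1,0]`, `hst` with `k = 1`: `C4e`.  Second:
`[1,2,0,0,3,0,0,4,0,0,1] ≈ [1,2,0,0,3,0,0,4,0,1,0]`: the same. -/
def N4eStmt : Prop := ∀ β : FIC, HB β → Iso3 β → ModF β → ¬ Oh β (Bit.J 3) → C4e β

/-- **N5X** (uses NPH, NCX, NCO, MWL.ARR).
PROOF.  Suppose `¬ C5 β`.  `¬ F`: NCO, `k = 3`, the two words of `C5`, `c = 0`, `d = 1`, `j = 2` (type of `0`:
`(1,2,0,2)`, it absorbs at `2` by `F`: push `0 ↦ 1, 1 ↦ 2, 2 ↦ 3` and add `(1,0,0,0)`; `1` occurs in block `2`).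
`¬ E`, `¬ G`, `¬ D 0` (ARR: `E → F`, `G → F`, `D 0 → D 1`).  NPH with `k = 3`, `i = 0`, `st = false`,
`A1 = (one, one, z, pos)`, `B1 = B2 = (one, z, one, z)`, `A2 = (one, pos, z, pos)`, `a = v4 1 2 0 2`,
`a' = v4 1 1 0 1`, `b = b' = v4 1 0 1 0`.  Closures: `cloB [8,5,3,2,1,0] 3 A1`, `cloB [8] 3 B1`,
`cloB [8,5,3,2,1,0] 3 A2`.  First: `[0,1,2,0,3,1,4,0,0] ≈ [1,0,2,0,3,1,4,0,0]`: substitute `3 ↦ [0,3]`: `C5`.  The
second is `C5`. -/
def N5xStmt : Prop := ∀ β : FIC, HB β → Iso3 β → ModF β → ¬ Oh β (Bit.D 1) → C5 β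

/-- **NH8** (uses N1A, N2X, N3A, N3B, N3C, N3D).  Without `D 0` all of `S8` holds.
PROOF.  `s1`: rename `0 ↔ 1` in `C1 true`, `C1 false`: `[0,0,1,2,1,1] ≈ [0,1,0,2,1,1] ≈ [1,0,0,2,1,1]`.  `s2` is
`C2`.  `s3`: `C3a` renamed `0 ↔ 1`: `[1,1,0,2,0,3,1,1] ≈ [1,0,1,2,..] ≈ [0,1,1,2,0,3,1,1]`.  `s4`: `C3b true`:
`[1,2,1,0,0,3,0,0] ≈ [1,2,0,1,0,3,0,0]`; delete `3`: `[1,2,1,0,0,0,0] ≈ [1,2,0,1,0,0,0]`; rename `0 ↔ 1`, and
`1111 ≈ 11`, `111 ≈ 1` at the end by `hst` (`k = 1`): `[0,2,0,1,1] ≈ [0,2,1,0,1]`.  `s5` is `C3b false`.  `s6`: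
`C3c true`: `[1,0,0,2,0,0,3,1] ≈ [0,1,0,2,0,0,3,1]`: delete `2`, rename `3 ↦ 2` and `0 ↔ 1`, `hst`:
`[0,1,1,2,0] ≈ [1,0,1,2,0]`.  `s7` is `C3c false`.  `s8`: `C3d` renamed `0 ↔ 1`:
`[1,1,2,0,3,0,1,1] ≈ [1,1,2,0,3,1,0,1] ≈ [1,1,2,0,3,1,1,0]`. -/
def Nh8Stmt : Prop := ∀ β : FIC, HB β → Iso3 β → ModF β → ¬ Oh β (Bit.D 0) → S8 β

/-- **NH3** (uses N4A, N4B, N4C, N4D, N4E).  Without `J 3` system h3 holds.
PROOF.  `a`, `b`: `C4a`, `C4b` renamed `0 ↔ 1`.  `c`: `C4c`.  `d`: `C4d`: `[0,0,1,2,1] ≈ [0,1,0,2,1]`; from `C4c`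
delete `2`, rename `3 ↦ 2`: `[0,1,0,0,2,1] ≈ [1,0,0,0,2,1]`, `hst` (`k = 1`): `[0,1,0,2,1] ≈ [1,0,0,2,1]`.  `e`: `C4e`
renamed: `[0,2,1,1,0] ≈ [0,2,1,0,1]`; from `C4b` delete `3`: `[1,2,0,1,0,0] ≈ [1,2,1,0,0,0]`, renamed:
`[0,2,1,0,1,1] ≈ [0,2,0,1,1,1]`, `hst`: `[0,2,1,0,1] ≈ [0,2,0,1,1]`. -/
def Nh3Stmt : Prop := ∀ β : FIC, HB β → Iso3 β → ModF β → ¬ Oh β (Bit.J 3) → Sh3 β

/-- **NHF** (uses NDD, N1A, N1B, N5X, NH8, NH3).  The necessity theorem for base (h).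
PROOF.  If `¬ J 3`: NH3.  Let `J 3` hold: `RR β [0,2,0,3,0] [0,2,0,3,0,0,0]`, so `[0,2,0,3,0] ≈ [0,2,0,3,0,0]` (`ap`).
If `D 0`: `[0,2,0,3,0] ≈ [0,2,0,3,0,0] ≈ [0,2,0,0,3,0,0]` (`D 0` with `2 ↦ 3`, and `[0,2]` in front) `≈
[0,0,2,0,0,3,0,0]` (`D 0` and a suffix), with `x³ ≈ x²`; and `C1 true` (N1B) `[1,1,0,2,0,0] ≈ [1,0,1,2,0,0]`:
delete `2`: `[1,1,0,0,0] ≈ [1,0,1,0,0]`, so `[1,1,0,0] ≈ [1,0,1,0]` (`hst`, `k = 0`), rename:
`[0,0,1,1] ≈ [0,1,0,1] ≈ [1,0,1,0] ≈ [1,1,0,0]`: `Sh2`.  If `¬ D 0`: `S8` by NH8; if `D 1`: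
`RR β [0,2,0,3,0,0] [0,2,0,0,0,3,0,0]`, so `Sh5`; if `¬ D 1`: `C5` (N5X) renamed `0 ↔ 1` and reversed:
`Sh4`. -/
def NhfStmt : Prop :=
  ∀ β : FIC, HB β → Iso3 β → ModF β → Sh2 β ∨ Sh3 β ∨ Sh4 β ∨ Sh5 β

end Pool.Agent.MWN
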