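import Pool.Agent.MWS.Defs
import Pool.Agent.MWF.Defs

/-!
# Necessity clauses of the aperiodic classification (MP_23468a_al): definitions

Block languages.  A word `asm k U` with the letters `0` and `1` in the blocks has the types
`ty U 0`, `ty U 1`; a language `LG k A B S i` prescribes for every block conditions on the numbers
of `0`s and `1`s, and a property `S` of block `i`.  `LC` is the largest fully invariant congruence
which preserves the language.
-/

namespace Pool.Agent.MWN

open Pool.Agent.Helper14_MV Pool.Agent.Helper2_MV Pool.Agent.MVO Pool.Agent.MWL Pool.Agent.MWS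
  Pool.Agent.MWF

/-- conditions on the number of occurrences in a block: `z`: `= 0`, `one`: `= 1`, `pos`: `≥ 1`,
`two`: `≥ 2`, `any`: no condition -/
inductive Cd where
  | z : Cd
  | one : Cd
  | pos : Cd
  | two : Cd
  | any : Cd
  deriving DecidableEq

/-- the number satisfies the condition -/
def Cd.sat : Cd → ℕ → Bool
  | Cd.z, n => n == 0
  | Cd.one, n => n == 1
  | Cd.pos, n => Nat.ble 1 n
  | Cd.two, n => Nat.ble 2 n
  | Cd.any, _ => true

/-- the number can be completed to one which satisfies the condition -/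
def Cd.ub : Cd → ℕ → Bool
  | Cd.z, n => n == 0
  | Cd.one, n => Nat.ble n 1
  | _, _ => true

/-- for all `m ≥ 1` and `r`, the numbers `m p + r` and `m q + r` both satisfy the condition or both
do not -/
def Cd.good : Cd → ℕ → ℕ → Bool
  | Cd.z, p, q => (p == 0) == (q == 0)
  | Cd.pos, p, q => (p == 0) == (q == 0)
  | Cd.one, p, q => (p == q) || (Nat.ble 2 p && Nat.ble 2 q)
  | Cd.two, p, q => (p == q) || (Nat.ble 2 p && Nat.ble 2 q)
  | Cd.any, _, _ => true

/-- the largest number `0, 1, 2` which satisfies the condition -/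
def Cd.h : Cd → ℕ
  | Cd.z => 0
  | Cd.one => 1
  | _ => 2

/-- conditions on two, three, four blocks -/
def cd2 (p q : Cd) : ℕ → Cd := fun j => if j = 0 then p else q
def cd3 (p q r : Cd) : ℕ → Cd := fun j => if j = 0 then p else if j = 1 then q else r
def cd4 (p q r s : Cd) : ℕ → Cd :=
  fun j => if j = 0 then p else if j = 1 then q else if j = 2 then r else s

/-- a vector satisfies the conditions -/
def Sat (k : ℕ) (A : ℕ → Cd) (a : ℕ → ℕ) : Prop := ∀ j ≤ k, (A j).sat (a j) = true

/-- a block language with the letters `0` and `1` -/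
def LG (k : ℕ) (A B : ℕ → Cd) (S : List ℕ → Prop) (i : ℕ) (w : List ℕ) : Prop :=
  ∃ U : ℕ → List ℕ, w = asm k U ∧ Two01 k U ∧ Sat k A (ty U 0) ∧ Sat k B (ty U 1) ∧ S (U i)

/-- the largest fully invariant congruence which preserves the language -/
def LC (k : ℕ) (A B : ℕ → Cd) (S : List ℕ → Prop) (i : ℕ) : FIC := gaml (LG k A B S i)

/-- state of a block: `false`: all `0` before all `1`; `true`: all `1` before all `0` -/
def Fst (st : Bool) (l : List ℕ) : Prop := ¬ List.Sublist (if st then [0, 1] else [1, 0]) l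

/-- state of a block: the last letter is `1` -/
def Lst (l : List ℕ) : Prop := l.getLast? = some 1

/-- the image of `a` under `f` can be completed to a vector which satisfies `A` -/
def Into (k1 k : ℕ) (f a : ℕ → ℕ) (A : ℕ → Cd) : Prop :=
  ∀ j ≤ k, (A j).ub (psh k1 f a j) = true

/-- no map of the blocks sends the pair of vectors `a`, `b` into `A`, `B` or into `B`, `A` -/
def IncC (k1 k : ℕ) (a b : ℕ → ℕ) (A B : ℕ → Cd) : Prop :=
  ∀ f, BMap k1 k f → ¬ (Into k1 k f a A ∧ Into k1 k f b B) ∧ ¬ (Into k1 k f b A ∧ Into k1 k f a B)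

/-- under every map of the blocks the vectors `c`, `c'` behave in the same way with respect to
`A` -/
def KapC (k1 k : ℕ) (c c' : ℕ → ℕ) (A : ℕ → Cd) : Prop :=
  ∀ f, BMap k1 k f → (¬ Into k1 k f c A ∧ ¬ Into k1 k f c' A) ∨
    ∀ j ≤ k, (A j).good (psh k1 f c j) (psh k1 f c' j) = true

/-- the words with the types `β`-related to `a`, `b` -/
def PT (β : FIC) (k : ℕ) (a b : ℕ → ℕ) (w : List ℕ) : Prop :=
  RR β (w.filter (fun c => decide (c ≠ 1))) (mw k a) ∧
    RR β (w.filter (fun c => decide (c ≠ 0))) (asm k (fun j => List.replicate (b j) 1))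

/-- the word with the types `a`, `b`; in every block all `0` before all `1`, in block `i` the other
order if `st` -/
def wd (i : ℕ) (a b : ℕ → ℕ) (st : Bool) : ℕ → List ℕ := fun j =>
  if j = i ∧ st = true then List.replicate (b j) 1 ++ List.replicate (a j) 0
  else List.replicate (a j) 0 ++ List.replicate (b j) 1

/-- `β` preserves the numbers of occurrences up to `2` (row CAP of MWS in the aperiodic case) -/
def CapP (β : FIC) : Prop :=
  ∀ u v : List ℕ, RR β u v → ∀ c, min (u.count c) 2 = min (v.count c) 2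

/-- the letter `N + j` stands for the image of block `j` of `V` -/
def hv (N : ℕ) (f : ℕ → List ℕ) (V : ℕ → List ℕ) (c : ℕ) : List ℕ :=
  if N ≤ c then (V (c - N)).flatMap f else [c]

/-- the set of vectors with the conditions `A` is closed under the one letter identities of `β` -/
def Clo (β : FIC) (k : ℕ) (A : ℕ → Cd) : Prop :=
  ∀ a c : ℕ → ℕ, Sat k A a → L1 β k a c → Sat k A c

/-- `i` is the only block where both conditions allow a letter -/
def Onl (k i : ℕ) (A B : ℕ → Cd) : Prop := ∀ j ≤ k, j ≠ i → A j = Cd.z ∨ B j = Cd.z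

/-! ### computable forms -/

/-- all weakly increasing lists of length `n` with entries in `lo, …, k` -/
def mps : ℕ → ℕ → ℕ → List (List ℕ)
  | 0, _, _ => [[]]
  | n + 1, lo, k => (List.range' lo (k + 1 - lo)).flatMap (fun x =>
      (mps n x k).map (fun l => x :: l))

/-- the image of `a` under the list `l` at `j` -/
def pl (k1 : ℕ) (l : List ℕ) (a : ℕ → ℕ) (j : ℕ) : ℕ :=
  ((List.range (k1 + 1)).map (fun i => if l.getD i 0 = j then a i else 0)).sum

/-- computable `Into` -/
def intoB (k1 k : ℕ) (l : List ℕ) (a : ℕ → ℕ) (A : ℕ → Cd) : Bool :=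
  (List.range (k + 1)).all (fun j => (A j).ub (pl k1 l a j))

/-- computable `IncC` -/
def incB (k1 k : ℕ) (a b : ℕ → ℕ) (A B : ℕ → Cd) : Bool :=
  (mps (k1 + 1) 0 k).all (fun l => !(intoB k1 k l a A && intoB k1 k l b B) &&
    !(intoB k1 k l b A && intoB k1 k l a B))

/-- computable `KapC` -/
def kapB (k1 k : ℕ) (c c' : ℕ → ℕ) (A : ℕ → Cd) : Bool :=
  (mps (k1 + 1) 0 k).all (fun l => (!(intoB k1 k l c A) && !(intoB k1 k l c' A)) ||
    (List.range (k + 1)).all (fun j => (A j).good (pl k1 l c j) (pl k1 l c' j)))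

/-- codes of the bits of one letter words -/
def bcode : Bit → ℕ
  | Bit.E => 0
  | Bit.F => 1
  | Bit.G => 2
  | Bit.D l => 2 * l + 3
  | Bit.J q => 2 * q + 4

/-- the bits which are equivalent to: `(1,…,1,0,h)` with `l` ones absorbs in block `l` -/
def ggl : ℕ → List Bit
  | 0 => [Bit.G]
  | l + 1 => [Bit.D l, Bit.F]

/-- the bits which are equivalent to: the vector `a` absorbs in block `i` -/
def tb (k : ℕ) (a : ℕ → ℕ) (i : ℕ) : List Bit :=
  if (List.range (i + 1)).any (fun p => Nat.ble 2 (a p)) then
    if a i = 0 then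
      if (List.range (k + 1)).any (fun q => Nat.blt i q && Nat.ble 1 (a q)) then [Bit.F]
      else [Bit.E]
    else []
  else if (List.range (k + 1)).any (fun q => Nat.blt i q && Nat.ble 2 (a q)) then
    if a i = 0 then ggl (lb a i) else [Bit.D (lb a i)]
  else if a i = 0 then
    if (List.range (k + 1)).any (fun q => Nat.blt i q && Nat.ble 1 (a q)) then
      Bit.J (deg k a) :: ggl (lb a i)
    else [Bit.J (deg k a), Bit.E]
  else [Bit.J (deg k a), Bit.D (lb a i)]

/-- all lists of length `n` with entries `0, 1, 2` -/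
def vecs : ℕ → List (List ℕ)
  | 0 => [[]]
  | n + 1 => (vecs n).flatMap (fun l => [0 :: l, 1 :: l, 2 :: l])

/-- the vector of a list -/
def vl (l : List ℕ) : ℕ → ℕ := fun j => l.getD j 0

/-- computable `Sat` -/
def satB (k : ℕ) (A : ℕ → Cd) (a : ℕ → ℕ) : Bool :=
  (List.range (k + 1)).all (fun j => (A j).sat (a j))

/-- computable closure test: `X` is the list of the codes of bits which do not hold -/
def cloB (X : List ℕ) (k : ℕ) (A : ℕ → Cd) : Bool :=
  (vecs (k + 1)).all (fun l => !(satB k A (vl l)) || (vecs (k + 1)).all (fun m =>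
    satB k A (vl m) || Nat.ble (deg k (vl l)) 1 || Nat.ble (deg k (vl m)) 1 ||
      (List.range (k + 1)).any (fun i => (vl l i != vl m i) &&
        ((tb k (vl l) i).any (fun b => X.contains (bcode b)) ||
          (tb k (vl m) i).any (fun b => X.contains (bcode b))))))

end Pool.Agent.MWN
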