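import Pool.Agent.MWN.StmtsA
import Pool.Agent.MWS.StmtsA

/-!
# Necessity clauses, base (h): definitions

`HB β`: the facts about two letter words in base (h) which are used (`x² ≈ x³`,
`x² t x ≈ x² t x²`, and: two words with two multiple letters and the same shapes are related if
they have the same state in the only common block).
-/

namespace Pool.Agent.MWN

open Pool.Agent.Helper14_MV Pool.Agent.Helper2_MV Pool.Agent.MVO Pool.Agent.MWL Pool.Agent.MWS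
  Pool.Agent.MWF

/-- two letter words with the same shapes are related if the states of the only common block
agree -/
def Hst (β : FIC) : Prop :=
  ∀ (k : ℕ) (U V : ℕ → List ℕ), OkB k U → OkB k V → Two01 k U → Two01 k V →
    Sh k (ty U 0) (ty V 0) → Sh k (ty U 1) (ty V 1) →
      (∀ i ≤ k, (∀ j ≤ k, j ≠ i → 0 ∉ U j ∨ 1 ∉ U j) →
        (Fst false (U i) ↔ Fst false (V i)) ∧ (Fst true (U i) ↔ Fst true (V i))) →
        RR β (asm k U) (asm k V)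

/-- base (h), two letter words -/
structure HB (β : FIC) : Prop where
  ap : RR β [0, 0] [0, 0, 0]
  rr : RR β [0, 0, 2, 0] [0, 0, 2, 0, 0]
  hst : Hst β

/-- the vector `a` without block `j` -/
def wo (j : ℕ) (a : ℕ → ℕ) : ℕ → ℕ := fun t => if t = j then 0 else a t

/-- the word of the language with the largest types, state `st` in block `i` -/
def cs (i : ℕ) (A B : ℕ → Cd) (st : Bool) : ℕ → List ℕ :=
  wd i (fun j => (A j).h) (fun j => (B j).h) st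

/-- a block with `p` and `q` letters (`1`, or `2` for heavy) which is not in state `st` -/
def nb (p q : ℕ) (st : Bool) : List ℕ :=
  if p = 1 ∧ q = 1 then (if st then [0, 1] else [1, 0])
  else if p = 1 then [1, 0, 1] else if q = 1 then [0, 1, 0] else [0, 1, 0, 1]

/-- the same types, block `i` not in state `st` -/
def cn (i : ℕ) (A B : ℕ → Cd) (st : Bool) : ℕ → List ℕ := fun j =>
  if j = i then nb (A j).h (B j).h st else cs i A B st j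

/-- the computable conditions of a pentagon in base (h) -/
def penB (k i : ℕ) (A1 B1 A2 B2 : ℕ → Cd) (a a' b b' : ℕ → ℕ) : Bool :=
  incB k k a b A1 B1 && (kapB k k a a' A2 && kapB k k a a' B2 && kapB k k b b' A2 &&
    kapB k k b b' B2) &&
  (List.range (k + 1)).all (fun j => ((a j == 0) == (a' j == 0)) && ((b j == 0) == (b' j == 0)) &&
    (A1 j).sat (a' j) && (A2 j).sat (a' j) && (B1 j).sat (b' j) && (B2 j).sat (b' j) &&
    ((j == i) || ((A1 j == Cd.z || B1 j == Cd.z) && (A2 j == Cd.z || B2 j == Cd.z)))) &&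
  (Nat.ble 2 (deg k a) && Nat.ble 2 (deg k a') && Nat.ble 2 (deg k b) && Nat.ble 2 (deg k b')) &&
  (Nat.ble 1 (a' i) && Nat.ble 1 (b' i) && Nat.ble i k)

/-- `R` is the one letter part of `β` -/
abbrev Oh (β : FIC) (b : Bit) : Prop := Has 1 (FC.ofFIC β) b

/-! ### the clauses -/

/-- `[1H, H0]`, the state `st` and the overlapping state -/
def C1 (β : FIC) (st : Bool) : Prop :=
  RR β (if st then [1, 1, 0, 2, 0, 0] else [0, 1, 1, 2, 0, 0]) [1, 0, 1, 2, 0, 0]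

/-- `xy|xx|yy ≈ yx|xx|yy` -/
def C2 (β : FIC) : Prop := RR β [0, 1, 2, 0, 0, 3, 1, 1] [1, 0, 2, 0, 0, 3, 1, 1]

/-- `[H0H, 110]` -/
def C3a (β : FIC) (st : Bool) : Prop :=
  RR β (if st then [1, 0, 0, 2, 1, 3, 0, 0] else [0, 0, 1, 2, 1, 3, 0, 0])
    [0, 1, 0, 2, 1, 3, 0, 0]

/-- `[0HH, 110]` -/
def C3b (β : FIC) (st : Bool) : Prop :=
  RR β (if st then [1, 2, 1, 0, 0, 3, 0, 0] else [1, 2, 0, 0, 1, 3, 0, 0])
    [1, 2, 0, 1, 0, 3, 0, 0]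

/-- `[HH0, 101]` -/
def C3c (β : FIC) (st : Bool) : Prop :=
  RR β (if st then [1, 0, 0, 2, 0, 0, 3, 1] else [0, 0, 1, 2, 0, 0, 3, 1])
    [0, 1, 0, 2, 0, 0, 3, 1]

/-- `[H0H, 011]` -/
def C3d (β : FIC) (st : Bool) : Prop :=
  RR β (if st then [0, 0, 2, 1, 3, 1, 0, 0] else [0, 0, 2, 1, 3, 0, 0, 1])
    [0, 0, 2, 1, 3, 0, 1, 0]

/-- `xy|x|yy ≈ yx|x|yy` (`y = 0`, `x = 1`) -/
def C4a (β : FIC) : Prop := RR β [0, 1, 2, 1, 3, 0, 0] [1, 0, 2, 1, 3, 0, 0]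

/-- `x|xy|yy ≈ x|yx|yy` -/
def C4b (β : FIC) : Prop := RR β [1, 2, 0, 1, 3, 0, 0] [1, 2, 1, 0, 3, 0, 0]

/-- `xy|xx|y ≈ yx|xx|y` -/
def C4c (β : FIC) : Prop := RR β [0, 1, 2, 0, 0, 3, 1] [1, 0, 2, 0, 0, 3, 1]

/-- `xxy|y ≈ xyx|y` -/
def C4d (β : FIC) : Prop := RR β [0, 0, 1, 2, 1] [0, 1, 0, 2, 1]

/-- `x|yyx ≈ x|yxy` (`y = 0`) -/
def C4e (β : FIC) : Prop := RR β [1, 2, 0, 0, 1] [1, 2, 0, 1, 0]

/-- `xy|xx|y|xx ≈ yx|xx|y|xx` -/
def C5 (β : FIC) : Prop :=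
  RR β [0, 1, 2, 0, 0, 3, 1, 4, 0, 0] [1, 0, 2, 0, 0, 3, 1, 4, 0, 0]

/-! ### the systems in the notation of the final theorem -/

/-- the eight two letter identities `S8` -/
structure S8 (β : FIC) : Prop where
  s1 : RR β [0, 0, 1, 2, 1, 1] [1, 0, 0, 2, 1, 1]
  s2 : RR β [0, 1, 2, 0, 0, 3, 1, 1] [1, 0, 2, 0, 0, 3, 1, 1]
  s3 : RR β [0, 1, 1, 2, 0, 3, 1, 1] [1, 1, 0, 2, 0, 3, 1, 1]
  s4 : RR β [0, 2, 0, 1, 1] [0, 2, 1, 0, 1]
  s5 : RR β [1, 2, 0, 0, 1, 3, 0, 0] [1, 2, 0, 1, 0, 3, 0, 0]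
  s6 : RR β [0, 1, 1, 2, 0] [1, 0, 1, 2, 0]
  s7 : RR β [0, 0, 1, 2, 0, 0, 3, 1] [0, 1, 0, 2, 0, 0, 3, 1]
  s8 : RR β [1, 1, 2, 0, 3, 0, 1, 1] [1, 1, 2, 0, 3, 1, 1, 0]

/-- system h3 -/
structure Sh3 (β : FIC) : Prop where
  a : RR β [0, 1, 2, 0, 3, 1, 1] [1, 0, 2, 0, 3, 1, 1]
  b : RR β [0, 2, 0, 1, 3, 1, 1] [0, 2, 1, 0, 3, 1, 1]
  c : RR β [0, 1, 2, 0, 0, 3, 1] [1, 0, 2, 0, 0, 3, 1]
  d : RR β [0, 0, 1, 2, 1] [1, 0, 0, 2, 1]
  e : RR β [0, 2, 0, 1, 1] [0, 2, 1, 1, 0]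

/-- system h4 -/
structure Sh4 (β : FIC) : Prop where
  s : S8 β
  j : RR β [0, 2, 0, 3, 0] [0, 2, 0, 3, 0, 0]
  c : RR β [0, 1, 2, 1, 1, 3, 0, 4, 1, 1] [1, 0, 2, 1, 1, 3, 0, 4, 1, 1]

/-- system h5 -/
structure Sh5 (β : FIC) : Prop where
  s : S8 β
  j : RR β [0, 2, 0, 3, 0] [0, 2, 0, 0, 3, 0, 0]

/-- the exceptional world h2 -/
structure Sh2 (β : FIC) : Prop where
  h : RR β [0, 0, 1, 1] [1, 1, 0, 0]
  j : RR β [0, 2, 0, 3, 0] [0, 0, 2, 0, 0, 3, 0, 0]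

end Pool.Agent.MWN
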